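import Mathlib

/-!
Queens on the `d`-dimensional board `{1, ..., n} ^ d`.
-/

namespace Pool.Agent.Lib.MP_7f0846_co

/-- A queen on `a` attacks the square `b ≠ a` when `b - a = k ε` for an integer `k ≠ 0` and a
nonzero vector `ε` with entries in `{-1, 0, 1}`. -/
def Attacks {d : ℕ} (a b : Fin d → ℤ) : Prop :=
  b ≠ a ∧ ∃ (k : ℤ) (ε : Fin d → ℤ), k ≠ 0 ∧ ε ≠ 0 ∧
    (∀ i, ε i = -1 ∨ ε i = 0 ∨ ε i = 1) ∧ b - a = k • ε

/-- The `(n, d)`-queens problem has a solution: some set of exactly `n ^ (d - 1)` squares of the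
board `{1, ..., n} ^ d` contains no two squares that attack each other. -/
def HasSolution (n d : ℕ) : Prop :=
  ∃ S : Finset (Fin d → ℤ), (∀ a ∈ S, ∀ i, 1 ≤ a i ∧ a i ≤ (n : ℤ)) ∧
    (∀ a ∈ S, ∀ b ∈ S, ¬ Attacks a b) ∧ S.card = n ^ (d - 1)

end Pool.Agent.Lib.MP_7f0846_co
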