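import Pool.Agent.Lib.MP_7f0846_co.Gadget

namespace Pool.Agent.Lib.MP_7f0846_co

/-- evaluate `x` before passing it on -/
noncomputable def force (x : ℕ) (k : ℕ → Bool) : Bool :=
  Nat.rec (k 0) (fun m _ => k (Nat.succ m)) x

lemma force_eq (x : ℕ) (k : ℕ → Bool) : force x k = k x := by
  cases x <;> rfl

/-- strict map -/
noncomputable def smap (f : ℕ × ℕ → ℕ) (l : List (ℕ × ℕ)) : (List ℕ → Bool) → Bool :=
  List.rec (fun k => k []) (fun a _ ih k => force (f a) fun v => ih fun r => k (v :: r)) l

lemma smap_eq (f : ℕ × ℕ → ℕ) : ∀ (l : List (ℕ × ℕ)) (k : List ℕ → Bool),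
    smap f l k = k (l.map f)
  | [], _ => rfl
  | a :: l, k => by
    show force (f a) (fun v => smap f l fun r => k (v :: r)) = _
    rw [force_eq, smap_eq f l]; rfl

/-- membership -/
noncomputable def memB (x : ℕ) (l : List ℕ) : Bool :=
  List.rec false (fun a _ ih => Bool.rec ih true (Nat.beq x a)) l

lemma memB_iff (x : ℕ) : ∀ l : List ℕ, memB x l = true ↔ x ∈ l
  | [] => by simp [memB]
  | a :: l => by
    have e : memB x (a :: l) = Bool.rec (memB x l) true (Nat.beq x a) := rfl
    rw [e, List.mem_cons, ← memB_iff x l]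
    cases h : Nat.beq x a
    · have : x ≠ a := Nat.ne_of_beq_eq_false h
      simp [this]
    · have : x = a := Nat.eq_of_beq_eq_true h
      simp [this]

/-- inclusion -/
noncomputable def subB (l m : List ℕ) : Bool :=
  List.rec true (fun a _ ih => Bool.rec false ih (memB a m)) l

lemma subB_sound (m : List ℕ) : ∀ l : List ℕ, subB l m = true → ∀ x ∈ l, x ∈ m
  | [], _ => by simp
  | a :: l, h => by
    have e : subB (a :: l) m = Bool.rec false (subB l m) (memB a m) := rfl
    rw [e] at h
    cases h1 : memB a m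
    · rw [h1] at h; exact absurd h (by simp)
    · rw [h1] at h
      intro x hx
      rcases List.mem_cons.1 hx with rfl | hx
      · exact (memB_iff _ _).1 h1
      · exact subB_sound m l h x hx

/-- no repetition -/
noncomputable def ndB (l : List ℕ) : Bool :=
  List.rec true (fun a l ih => Bool.rec ih false (memB a l)) l

lemma ndB_sound : ∀ l : List ℕ, ndB l = true → l.Nodup
  | [], _ => List.nodup_nil
  | a :: l, h => by
    have e : ndB (a :: l) = Bool.rec (ndB l) false (memB a l) := rfl
    rw [e] at h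
    cases h1 : memB a l
    · rw [h1] at h
      refine List.nodup_cons.2 ⟨fun hm => ?_, ndB_sound l h⟩
      rw [(memB_iff _ _).2 hm] at h1
      exact absurd h1 (by simp)
    · rw [h1] at h; exact absurd h (by simp)

/-- the fast check; `A1` lists the new edges that have partners, with their two partners -/
noncomputable def fastCheck (n : ℕ) (e : ℕ × ℕ) (A0 R : List (ℕ × ℕ))
    (A1 : List ((ℕ × ℕ) × (ℕ × ℕ) × (ℕ × ℕ))) (hole : List ℕ) : Bool :=
  ((e :: (A0 ++ A1.map (·.1))).all fun a => decide (a.1 < n) && decide (a.2 < n)) &&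
  ((A1.map (·.2.1) ++ A1.map (·.2.2)).all fun a => decide (a.1 < n) && decide (a.2 < n)) &&
  (smap (·.1) (e :: (A0 ++ A1.map (·.1))) fun vA => smap (·.1) R fun vR =>
    subB vR vA && subB hole vA) &&
  (A1.all fun x => (vv n 6 x.1 == vv n 6 x.2.1) && pm n 6 x.1 x.2.1 &&
    (vv n 0 x.1 == vv n 0 x.2.2) && pm n 0 x.1 x.2.2) &&
  (List.range 7).all fun t =>
    ((A0 ++ A1.map (·.1)).all fun b => vv n t e != vv n t b || pm n t e b) &&
    smap (vv n t) (A0 ++ A1.map (·.1)) ndB &&
    smap (vv n t) R fun vR => (smap (vv n t) (e :: A0) fun vA => subB vA (hole ++ vR)) &&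
      (t == 0 || t == 6 || smap (vv n t) (A1.map (·.1)) fun vA => subB vA (hole ++ vR))

lemma gadgetCheck_of_fast {n : ℕ} {e : ℕ × ℕ} {A0 R : List (ℕ × ℕ)}
    {A1 : List ((ℕ × ℕ) × (ℕ × ℕ) × (ℕ × ℕ))} {hole : List ℕ}
    (h : fastCheck n e A0 R A1 hole = true) :
    gadgetCheck n (e :: (A0 ++ A1.map (·.1))) R (A1.map (·.2.1) ++ A1.map (·.2.2)) hole = true := by
  simp only [fastCheck, smap_eq, Bool.and_eq_true] at h
  obtain ⟨⟨⟨⟨c1, c2⟩, c3, c4⟩, c5⟩, c6⟩ := h
  simp only [gadgetCheck, Bool.and_eq_true]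
  refine ⟨⟨⟨⟨c1, c2⟩, ?_⟩, ?_⟩, ?_⟩
  · simp only [List.all_eq_true, List.any_eq_true, beq_iff_eq]
    intro r hr
    simpa only [List.mem_map] using subB_sound _ _ c3 r.1 (List.mem_map_of_mem hr)
  · simp only [List.all_eq_true, List.any_eq_true, beq_iff_eq]
    intro r hr
    simpa only [List.mem_map] using subB_sound _ _ c4 r hr
  · simp only [List.all_eq_true, List.any_eq_true, beq_iff_eq, bne_iff_ne, Bool.and_eq_true,
      Bool.or_eq_true, List.mem_range] at c5 c6 ⊢
    intro t ht a ha
    obtain ⟨⟨d1, d2⟩, d3, d4⟩ := c6 t ht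
    have hsub : ∀ l : List (ℕ × ℕ), subB (l.map (vv n t)) (hole ++ R.map (vv n t)) = true →
        a ∈ l → (∃ x ∈ hole, vv n t a = x) ∨ ∃ x ∈ R, vv n t a = vv n t x := by
      intro l hl hal
      rcases List.mem_append.1 (subB_sound _ _ hl _ (List.mem_map_of_mem hal)) with h | h
      · exact Or.inl ⟨_, h, rfl⟩
      · obtain ⟨x, hx, hx'⟩ := List.mem_map.1 h
        exact Or.inr ⟨x, hx, hx'.symm⟩
    constructor
    · intro b hb
      by_cases hv : vv n t a = vv n t b
      · rcases List.mem_cons.1 ha with rfl | ha' <;> rcases List.mem_cons.1 hb with rfl | hb'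
        · exact Or.inl (Or.inr rfl)
        · rcases d1 b hb' with h | h
          · exact absurd hv h
          · exact Or.inr h
        · rcases d1 a ha' with h | h
          · exact absurd hv.symm h
          · rcases pm_symm h with h | h
            · exact Or.inl (Or.inr h.symm)
            · exact Or.inr h
        · have := List.inj_on_of_nodup_map (ndB_sound _ d2) ha' hb' hv
          exact Or.inl (Or.inr (by rw [this]))
      · exact Or.inl (Or.inl hv)
    · rw [← List.cons_append] at ha
      rcases List.mem_append.1 ha with ha | ha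
      · exact Or.inl (hsub _ d3 ha)
      · rcases d4 with (rfl | rfl) | d4
        · obtain ⟨x, hx, rfl⟩ := List.mem_map.1 ha
          exact Or.inr ⟨x.2.2, List.mem_append_right _ (List.mem_map_of_mem hx),
            (c5 x hx).1.2, (c5 x hx).2⟩
        · obtain ⟨x, hx, rfl⟩ := List.mem_map.1 ha
          exact Or.inr ⟨x.2.1, List.mem_append_left _ (List.mem_map_of_mem hx),
            (c5 x hx).1.1.1, (c5 x hx).1.1.2⟩
        · exact Or.inl (hsub _ d4 ha)

/-- value of an edge in one of the eight classes -/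
def vw (n t : ℕ) (e : ℕ × ℕ) : ℕ := if t = 7 then e.1 else vv n t e

/-- check of the prescribed edges -/
noncomputable def presCheck (n Q B : ℕ) (P : List (ℕ × ℕ)) : Bool :=
  (List.range 8).all fun t => (P.all fun p => Nat.gcd (vw n t p) Q == 1) &&
    smap (fun p => vw n t p % B) P ndB

lemma presCheck_sound {n Q B : ℕ} {P : List (ℕ × ℕ)} (h : presCheck n Q B P = true) :
    ∀ t, t < 8 → (∀ p ∈ P, Nat.Coprime (vw n t p) Q) ∧ (P.map fun p => vw n t p % B).Nodup := by
  simp only [presCheck, smap_eq, List.all_eq_true, Bool.and_eq_true, beq_iff_eq,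
    List.mem_range] at h
  exact fun t ht => ⟨(h t ht).1, ndB_sound _ (h t ht).2⟩

end Pool.Agent.Lib.MP_7f0846_co
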