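import Pool.Agent.Lib.MP_7f0846_co.Geom

namespace Pool.Agent.Lib.MP_7f0846_co

/-- value of an edge in class `t - 3` -/
def vv (n t : ℕ) (e : ℕ × ℕ) : ℕ := (e.2 + (t + n - 3) * e.1) % n

lemma vv_cast {n : ℕ} (hn : 3 ≤ n) (t : ℕ) (e : ℕ × ℕ) :
    ((vv n t e : ℕ) : ZMod n) = (e.2 : ZMod n) + (((t : ℤ) - 3 : ℤ) : ZMod n) * (e.1 : ZMod n) := by
  unfold vv
  rw [ZMod.natCast_mod, show t + n - 3 = t + (n - 3) by omega]
  push_cast [Nat.cast_sub hn]
  simp
  ring

/-- harmless coincidences -/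
def pm (n t : ℕ) (a b : ℕ × ℕ) : Bool :=
  if a.1 < b.1 then
    (t == 6 && decide (a.2 + 3 * (n - (b.1 - a.1)) ≤ n + 1)) ||
      (t == 0 && decide (b.2 + 3 * (n - (b.1 - a.1)) ≤ n + 1))
  else
    (t == 6 && decide (b.2 + 3 * (n - (a.1 - b.1)) ≤ n + 1)) ||
      (t == 0 && decide (a.2 + 3 * (n - (a.1 - b.1)) ≤ n + 1))

lemma pm_symm {n t : ℕ} {a b : ℕ × ℕ} (h : pm n t a b = true) : a.1 = b.1 ∨ pm n t b a = true := by
  unfold pm at h ⊢
  rcases lt_trichotomy a.1 b.1 with h1 | h1 | h1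
  · right; rw [if_pos h1] at h; rw [if_neg (by omega)]; exact h
  · left; exact h1
  · right; rw [if_neg (by omega)] at h; rw [if_pos h1]; exact h

/-- the finite check of the gadget -/
def gadgetCheck (n : ℕ) (A R W : List (ℕ × ℕ)) (hole : List ℕ) : Bool :=
  (A.all fun a => decide (a.1 < n) && decide (a.2 < n)) &&
  (W.all fun a => decide (a.1 < n) && decide (a.2 < n)) &&
  (R.all fun r => A.any fun a => a.1 == r.1) &&
  (hole.all fun h => A.any fun a => a.1 == h) &&
  (List.range 7).all fun t => A.all fun a =>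
    (A.all fun b => vv n t a != vv n t b || a.1 == b.1 || pm n t a b) &&
    ((hole.any fun h => vv n t a == h) || (R.any fun r => vv n t a == vv n t r) ||
      (W.any fun p => vv n t a == vv n t p && pm n t a p))

theorem good_of_gadget (n : ℕ) (hn : 3 ≤ n) (h6 : IsCoprime (n : ℤ) 6) (H : ZMod n → Prop)
    (M : ZMod n → ZMod n) (A R W : List (ℕ × ℕ)) (hole : List ℕ)
    (hH : ∀ j : ℕ, j < n → (H j ↔ j ∈ hole))
    (hP : ∀ p ∈ R ++ W, M p.1 = p.2 ∧ ¬ H p.1)
    (hM : ∀ c : ℤ, -3 ≤ c → c ≤ 3 → (∀ r, ¬ H r → ¬ H (M r + (c : ZMod n) * r)) ∧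
      (∀ r r', ¬ H r → ¬ H r' → M r + (c : ZMod n) * r = M r' + (c : ZMod n) * r' → r = r'))
    (hc : gadgetCheck n A R W hole = true) : ∃ f, Good n f := by
  classical
  have : NeZero n := ⟨by omega⟩
  simp only [gadgetCheck, Bool.and_eq_true, List.all_eq_true, List.any_eq_true, decide_eq_true_eq,
    beq_iff_eq, bne_iff_ne, Bool.or_eq_true, List.mem_range] at hc
  obtain ⟨⟨⟨⟨c1, c2⟩, c3⟩, c4⟩, c5⟩ := hc
  let g : ℕ → ℕ := fun j => if h : ∃ a ∈ A, a.1 = j then h.choose.2 else (M j).val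
  have hg : ∀ j, (j, g j) ∈ A ∨ ((¬ ∃ a ∈ A, a.1 = j) ∧ g j = (M j).val) := by
    intro j
    by_cases h : ∃ a ∈ A, a.1 = j
    · left
      have e : g j = h.choose.2 := dif_pos h
      have := h.choose_spec
      rw [e]
      convert this.1
      exact this.2.symm
    · right; exact ⟨h, dif_neg h⟩
  have hinj : ∀ {a b : ℕ}, a < n → b < n → (a : ZMod n) = (b : ZMod n) → a = b := by
    intro a b ha hb h
    rw [ZMod.natCast_eq_natCast_iff', Nat.mod_eq_of_lt ha, Nat.mod_eq_of_lt hb] at h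
    exact h
  have hvlt : ∀ t e, vv n t e < n := fun t e => Nat.mod_lt _ (by omega)
  have mixed : ∀ t, t < 7 → ∀ j j', j' < n → (j, g j) ∈ A → (¬ ∃ a ∈ A, a.1 = j') →
      g j' = (M j').val → vv n t (j, g j) = vv n t (j', g j') →
      pm n t (j, g j) (j', g j') = true := by
    intro t ht j j' hj' h1 h2 h3 e
    have hH' : ¬ H j' := fun h => h2 (c4 j' ((hH j' hj').1 h))
    have hM' := hM ((t : ℤ) - 3) (by omega) (by omega)
    have ev : ((vv n t (j', g j') : ℕ) : ZMod n) =
        M j' + (((t : ℤ) - 3 : ℤ) : ZMod n) * (j' : ZMod n) := by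
      rw [vv_cast hn, h3]; simp
    have hp : ∀ p ∈ R ++ W, vv n t (j, g j) = vv n t p → (j' : ZMod n) = (p.1 : ZMod n) := by
      intro p hp e'
      apply hM'.2 _ _ hH' (hP p hp).2
      rw [← ev, ← e, e', vv_cast hn, (hP p hp).1]
    rcases (c5 t ht _ h1).2 with (⟨h, hh, e'⟩ | ⟨r, hr, e'⟩) | ⟨p, hp', e', hpm⟩
    · exfalso
      apply hM'.1 _ hH'
      rw [← ev, ← e]
      exact (hH _ (hvlt _ _)).2 (e' ▸ hh)
    · exfalso
      obtain ⟨a, ha, ha'⟩ := c3 r hr
      have := hp r (List.mem_append_left _ hr) e'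
      rw [← ha'] at this
      exact h2 ⟨a, ha, (hinj hj' (c1 a ha).1 this).symm⟩
    · have e1 := hinj hj' (c2 p hp').1 (hp p (List.mem_append_right _ hp') e')
      have e2 : g j' = p.2 := by
        rw [h3, e1, (hP p (List.mem_append_right _ hp')).1, ZMod.val_natCast,
          Nat.mod_eq_of_lt (c2 p hp').2]
      rw [e2, e1]
      exact hpm
  have main : ∀ t, t < 7 → ∀ j j', j < n → j' < n → vv n t (j, g j) = vv n t (j', g j') →
      j = j' ∨ pm n t (j, g j) (j', g j') = true := by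
    intro t ht j j' hj hj' e
    rcases hg j with h1 | ⟨h1, h2⟩ <;> rcases hg j' with h1' | ⟨h1', h2'⟩
    · rcases (c5 t ht _ h1).1 _ h1' with (h | h) | h
      · exact absurd e h
      · exact Or.inl h
      · exact Or.inr h
    · exact Or.inr (mixed t ht j j' hj' h1 h1' h2' e)
    · rcases pm_symm (mixed t ht j' j hj h1' h1 h2 e.symm) with h | h
      · exact Or.inl h.symm
      · exact Or.inr h
    · left
      have hH1 : ¬ H j := fun h => h1 (c4 j ((hH j hj).1 h))
      have hH2 : ¬ H j' := fun h => h1' (c4 j' ((hH j' hj').1 h))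
      apply hinj hj hj'
      apply (hM ((t : ℤ) - 3) (by omega) (by omega)).2 _ _ hH1 hH2
      have := congrArg (Nat.cast : ℕ → ZMod n) e
      rw [vv_cast hn, vv_cast hn, h2, h2'] at this
      simpa using this
  have main' : ∀ t : ℕ, t < 7 → ∀ j j' : ℕ, j < n → j' < n →
      (n : ℤ) ∣ ((g j : ℤ) + ((t : ℤ) - 3) * j) - ((g j' : ℤ) + ((t : ℤ) - 3) * j') →
      j = j' ∨ pm n t (j, g j) (j', g j') = true := by
    intro t ht j j' hj hj' hd
    apply main t ht j j' hj hj'
    apply hinj (hvlt _ _) (hvlt _ _)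
    rw [vv_cast hn, vv_cast hn]
    have := (ZMod.intCast_zmod_eq_zero_iff_dvd _ n).2 hd
    push_cast at this ⊢
    linear_combination this
  refine ⟨fun j => (g j.toNat : ℤ), h6, fun j => by positivity, ?_, ?_, ?_⟩
  · intro c h1 h2 j j' a1 a2 a3 a4 hd
    obtain ⟨t, rfl⟩ : ∃ t : ℕ, c = (t : ℤ) - 3 := ⟨(c + 3).toNat, by omega⟩
    lift j to ℕ using a1
    lift j' to ℕ using a3
    simp only [Int.toNat_natCast] at hd
    rcases main' t (by omega) j j' (by omega) (by omega) hd with h | h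
    · rw [h]
    · exfalso
      have t6 : t ≠ 6 := by omega
      have t0 : t ≠ 0 := by omega
      unfold pm at h
      split_ifs at h <;> simp [t6, t0] at h
  · intro j j' a1 a2 a3 hd
    have a4 : 0 ≤ j' := by omega
    lift j to ℕ using a1
    lift j' to ℕ using a4
    simp only [Int.toNat_natCast] at hd ⊢
    rcases main' 6 (by omega) j j' (by omega) (by omega) (by simpa using hd) with h | h
    · omega
    · unfold pm at h
      rw [if_pos (by simpa using a2)] at h
      simp at h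
      omega
  · intro j j' a1 a2 a3 hd
    have a4 : 0 ≤ j := by omega
    lift j to ℕ using a4
    lift j' to ℕ using a1
    simp only [Int.toNat_natCast] at hd ⊢
    rcases main' 0 (by omega) j j' (by omega) (by omega) (by simpa using hd) with h | h
    · omega
    · unfold pm at h
      rw [if_neg (by simp only [not_lt]; omega)] at h
      simp at h
      omega

end Pool.Agent.Lib.MP_7f0846_co
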