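import Pool.Agent.Lib.MP_7f0846_co.Defs

namespace Pool.Agent.Lib.MP_7f0846_co

lemma eq_zero_of_dvd_small {n t s : ℤ} (h6 : IsCoprime n 6) (hs : s ∣ 6) (hd : n ∣ t * s)
    (h1 : -n < t) (h2 : t < n) : t = 0 := by
  have hc : IsCoprime n s := h6.of_isCoprime_of_dvd_right hs
  have h3 : n ∣ t := hc.dvd_of_dvd_mul_right hd
  exact Int.eq_zero_of_abs_lt_dvd h3 (abs_lt.2 ⟨h1, h2⟩)

section core
variable {n : ℤ} {f : ℤ → ℤ}

/-- the hypotheses on `f` -/
structure Good (n : ℤ) (f : ℤ → ℤ) : Prop where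
  h6 : IsCoprime n 6
  hf : ∀ j, 0 ≤ f j
  hex : ∀ c : ℤ, -2 ≤ c → c ≤ 2 → ∀ j j', 0 ≤ j → j < n → 0 ≤ j' → j' < n →
    n ∣ (f j + c * j) - (f j' + c * j') → j = j'
  hp : ∀ j j', 0 ≤ j → j < j' → j' < n → n ∣ (f j + 3 * j) - (f j' + 3 * j') →
    f j + 3 * (n - (j' - j)) ≤ n + 1
  hm : ∀ j j', 0 ≤ j' → j' < j → j < n → n ∣ (f j + (-3) * j) - (f j' + (-3) * j') →
    f j + 3 * (n - (j - j')) ≤ n + 1

lemma core_three (G : Good n f) {i j i' j' t e2 : ℤ} (hi : 0 ≤ i) (hi' : i' < n)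
    (hj0 : 0 ≤ j) (hj1 : j < n) (hj0' : 0 ≤ j') (hj1' : j' < n) (ht : 0 < t)
    (he2 : e2 = -1 ∨ e2 = 1) (h1 : i' - i = t) (h2 : j' - j = t * e2)
    (h3 : (2 * i' + f j') % n - (2 * i + f j) % n = -t) : False := by
  have hn : 0 < n := by omega
  have hdiv : n ∣ (2 * i' + f j') - (2 * i + f j) + t := by
    have a1 := Int.emod_add_mul_ediv (2 * i' + f j') n
    have a2 := Int.emod_add_mul_ediv (2 * i + f j) n
    exact ⟨(2 * i' + f j') / n - (2 * i + f j) / n, by linarith [mul_sub n ((2 * i' + f j') / n) ((2 * i + f j) / n)]⟩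
  have hk : 0 ≤ (2 * i' + f j') % n := Int.emod_nonneg _ hn.ne'
  have key : f j + 3 * (n - t) ≤ n + 1 := by
    rcases he2 with rfl | rfl
    · have := G.hm j j' hj0' (by omega) hj1 (by
        have e : (f j + (-3) * j) - (f j' + (-3) * j') =
            -((2 * i' + f j') - (2 * i + f j) + t) := by
          have : j' = j - t := by omega
          have : i' = i + t := by omega
          linarith
        rw [e]; exact (dvd_neg).2 hdiv)
      have e : j - j' = t := by omega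
      rwa [e] at this
    · have := G.hp j j' hj0 (by omega) hj1' (by
        have e : (f j + 3 * j) - (f j' + 3 * j') =
            -((2 * i' + f j') - (2 * i + f j) + t) := by
          have : j' = j + t := by omega
          have : i' = i + t := by omega
          linarith
        rw [e]; exact (dvd_neg).2 hdiv)
      have e : j' - j = t := by omega
      rwa [e] at this
  have hf := G.hf j
  have e : (2 * i + f j) % n = 2 * i + f j := Int.emod_eq_of_lt (by omega) (by omega)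
  omega

lemma core (G : Good n f) {i j i' j' t e1 e2 e3 : ℤ} (hi0 : 0 ≤ i) (hi1 : i < n)
    (hi0' : 0 ≤ i') (hi1' : i' < n)
    (hj0 : 0 ≤ j) (hj1 : j < n) (hj0' : 0 ≤ j') (hj1' : j' < n) (ht : 0 < t)
    (he1 : e1 = -1 ∨ e1 = 0 ∨ e1 = 1) (he2 : e2 = -1 ∨ e2 = 0 ∨ e2 = 1)
    (he3 : e3 = -1 ∨ e3 = 0 ∨ e3 = 1) (hne : ¬ (e1 = 0 ∧ e2 = 0 ∧ e3 = 0))
    (h1 : i' - i = t * e1) (h2 : j' - j = t * e2)
    (h3 : (2 * i' + f j') % n - (2 * i + f j) % n = t * e3) : False := by
  have hn : 0 < n := by omega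
  have hk0 : 0 ≤ (2 * i + f j) % n := Int.emod_nonneg _ hn.ne'
  have hk1 : (2 * i + f j) % n < n := Int.emod_lt_of_pos _ hn
  have hk0' : 0 ≤ (2 * i' + f j') % n := Int.emod_nonneg _ hn.ne'
  have hk1' : (2 * i' + f j') % n < n := Int.emod_lt_of_pos _ hn
  have htn : t < n := by
    rcases he1 with rfl | rfl | rfl <;> rcases he2 with rfl | rfl | rfl <;>
      rcases he3 with rfl | rfl | rfl <;> omega
  have hdiv : n ∣ f j' - f j - t * (e3 - 2 * e1) := by
    have a1 := Int.emod_add_mul_ediv (2 * i' + f j') n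
    have a2 := Int.emod_add_mul_ediv (2 * i + f j) n
    exact ⟨(2 * i' + f j') / n - (2 * i + f j) / n, by
      linarith [mul_sub n ((2 * i' + f j') / n) ((2 * i + f j) / n), mul_sub t e3 (2 * e1),
        mul_left_comm t 2 e1]⟩
  rcases he2 with he2 | he2 | he2
  · by_cases hc : -2 ≤ e3 - 2 * e1 ∧ e3 - 2 * e1 ≤ 2
    · have := G.hex (e3 - 2 * e1) hc.1 hc.2 j' j hj0' hj1' hj0 hj1 (by
        have e : j' = j - t := by subst he2; omega
        have e' : (f j' + (e3 - 2 * e1) * j') - (f j + (e3 - 2 * e1) * j) =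
            f j' - f j - t * (e3 - 2 * e1) := by
          generalize f j' = y
          rw [e]; ring
        rw [e']; exact hdiv)
      subst he2; omega
    · have hcase : (e1 = 1 ∧ e3 = -1) ∨ (e1 = -1 ∧ e3 = 1) := by omega
      rcases hcase with ⟨rfl, rfl⟩ | ⟨rfl, rfl⟩
      · exact core_three G hi0 hi1' hj0 hj1 hj0' hj1' ht (Or.inl he2) (by omega) h2 (by omega)
      · exact core_three (e2 := 1) G hi0' hi1 hj0' hj1' hj0 hj1 ht (Or.inr rfl) (by omega)
          (by subst he2; omega) (by omega)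
  · subst he2
    have e : j' = j := by omega
    subst e
    have hd : n ∣ t * (e3 - 2 * e1) := by
      have : t * (e3 - 2 * e1) = -(f j' - f j' - t * (e3 - 2 * e1)) := by ring
      rw [this]; exact (dvd_neg).2 hdiv
    have hs : e3 - 2 * e1 ∣ 6 := by
      rcases he1 with rfl | rfl | rfl <;> rcases he3 with rfl | rfl | rfl <;>
        first | (exfalso; exact hne ⟨rfl, rfl, rfl⟩) | norm_num
    have := eq_zero_of_dvd_small G.h6 hs hd (by omega) htn
    omega
  · by_cases hc : -2 ≤ 2 * e1 - e3 ∧ 2 * e1 - e3 ≤ 2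
    · have := G.hex (2 * e1 - e3) hc.1 hc.2 j' j hj0' hj1' hj0 hj1 (by
        have e : j' = j + t := by subst he2; omega
        have e' : (f j' + (2 * e1 - e3) * j') - (f j + (2 * e1 - e3) * j) =
            f j' - f j - t * (e3 - 2 * e1) := by
          generalize f j' = y
          rw [e]; ring
        rw [e']; exact hdiv)
      subst he2; omega
    · have hcase : (e1 = 1 ∧ e3 = -1) ∨ (e1 = -1 ∧ e3 = 1) := by omega
      rcases hcase with ⟨rfl, rfl⟩ | ⟨rfl, rfl⟩
      · exact core_three G hi0 hi1' hj0 hj1 hj0' hj1' ht (Or.inr he2) (by omega) h2 (by omega)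
      · exact core_three (e2 := -1) G hi0' hi1 hj0' hj1' hj0 hj1 ht (Or.inl rfl) (by omega)
          (by subst he2; omega) (by omega)

end core

theorem hasSolution_of_good (n : ℕ) (f : ℤ → ℤ) (G : Good n f) : HasSolution n 3 := by
  classical
  let g : ℤ × ℤ → (Fin 3 → ℤ) := fun p => ![p.1 + 1, p.2 + 1, (2 * p.1 + f p.2) % n + 1]
  refine ⟨((Finset.Ico (0 : ℤ) n) ×ˢ (Finset.Ico (0 : ℤ) n)).image g, ?_, ?_, ?_⟩
  · intro a ha
    simp only [Finset.mem_image, Finset.mem_product, Finset.mem_Ico] at ha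
    obtain ⟨p, ⟨⟨h1, h2⟩, h3, h4⟩, rfl⟩ := ha
    have hn : (0 : ℤ) < n := by omega
    have hk0 : 0 ≤ (2 * p.1 + f p.2) % n := Int.emod_nonneg _ hn.ne'
    have hk1 : (2 * p.1 + f p.2) % n < n := Int.emod_lt_of_pos _ hn
    intro i
    fin_cases i <;> simp [g] <;> omega
  · intro a ha b hb
    simp only [Finset.mem_image, Finset.mem_product, Finset.mem_Ico] at ha hb
    obtain ⟨p, ⟨⟨h1, h2⟩, h3, h4⟩, rfl⟩ := ha
    obtain ⟨p', ⟨⟨h1', h2'⟩, h3', h4'⟩, rfl⟩ := hb
    rintro ⟨_, k, ε, hk, hε, hε', he⟩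
    have e0 := congrFun he 0
    have e1 := congrFun he 1
    have e2 := congrFun he 2
    simp [g] at e0 e1 e2
    have hne : ¬ (ε 0 = 0 ∧ ε 1 = 0 ∧ ε 2 = 0) := by
      rintro ⟨z0, z1, z2⟩
      apply hε
      funext i
      fin_cases i
      · exact z0
      · exact z1
      · exact z2
    rcases lt_or_gt_of_ne hk with hk | hk
    · refine core (t := -k) (e1 := -ε 0) (e2 := -ε 1) (e3 := -ε 2) G h1 h2 h1' h2' h3 h4 h3' h4'
        (by omega) ?_ ?_ ?_ ?_ (by rw [e0]; ring) (by rw [e1]; ring) (by rw [e2]; ring)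
      · have := hε' 0; omega
      · have := hε' 1; omega
      · have := hε' 2; omega
      · omega
    · exact core G h1 h2 h1' h2' h3 h4 h3' h4' hk (hε' 0) (hε' 1) (hε' 2) hne e0 e1 e2
  · rw [Finset.card_image_of_injective]
    · simp [sq]
    · intro p p' h
      have e0 := congrFun h 0
      have e1 := congrFun h 1
      simp [g] at e0 e1
      exact Prod.ext e0 e1

end Pool.Agent.Lib.MP_7f0846_co
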