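import Pool.Agent.Lib.MP_7f0846_co.Open

namespace Pool.Agent.Lib.MP_7f0846_co

lemma ind_exists (q l e w : ℕ) [hq : Fact q.Prime] [hl : Fact l.Prime] (he : q - 1 = l * e)
    (hw1 : w ^ l % q = 1) (hw2 : w % q ≠ 1) :
    ∃ ind : ZMod q → ZMod l, (∀ a b, a ≠ 0 → b ≠ 0 → ind (a * b) = ind a + ind b) ∧
      ∀ y k : ℕ, y % q ≠ 0 → y ^ e % q = w ^ k % q → ind (y : ZMod q) = (k : ZMod l) := by
  classical
  have hq1 : 1 % q = 1 := Nat.mod_eq_of_lt hq.out.one_lt
  have h1 : (w : ZMod q) ^ l = 1 := by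
    have : ((w ^ l : ℕ) : ZMod q) = ((1 : ℕ) : ZMod q) :=
      (ZMod.natCast_eq_natCast_iff' _ _ _).2 (by rw [hw1, hq1])
    simpa using this
  have h2 : (w : ZMod q) ≠ 1 := by
    intro h
    have : ((w : ℕ) : ZMod q) = ((1 : ℕ) : ZMod q) := by simpa using h
    rw [ZMod.natCast_eq_natCast_iff', hq1] at this
    exact hw2 this
  have hord : orderOf (w : ZMod q) = l := orderOf_eq_prime h1 h2
  have hprim : IsPrimitiveRoot (w : ZMod q) l := hord ▸ IsPrimitiveRoot.orderOf (w : ZMod q)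
  have : NeZero l := ⟨hl.out.ne_zero⟩
  have hex : ∀ y : ZMod q, ∃ i : ℕ, y ≠ 0 → (w : ZMod q) ^ i = y ^ e := by
    intro y
    by_cases hy : y = 0
    · exact ⟨0, fun h => absurd hy h⟩
    · have : (y ^ e) ^ l = 1 := by
        rw [← pow_mul, mul_comm, ← he]; exact ZMod.pow_card_sub_one_eq_one hy
      obtain ⟨i, _, hi⟩ := hprim.eq_pow_of_pow_eq_one this
      exact ⟨i, fun _ => hi⟩
  choose I hI using hex
  have hinj : ∀ i j : ℕ, (w : ZMod q) ^ i = (w : ZMod q) ^ j → (i : ZMod l) = (j : ZMod l) := by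
    intro i j h
    have hu : (w : ZMod q) ≠ 0 := hprim.ne_zero hl.out.ne_zero
    have hm : ∀ i : ℕ, (w : ZMod q) ^ i = (w : ZMod q) ^ (i % l) := by
      intro i
      conv_lhs => rw [← Nat.mod_add_div i l, pow_add, pow_mul, h1, one_pow, mul_one]
    rw [hm i, hm j] at h
    rw [ZMod.natCast_eq_natCast_iff']
    exact hprim.pow_inj (Nat.mod_lt _ hl.out.pos) (Nat.mod_lt _ hl.out.pos) h
  refine ⟨fun y => (I y : ZMod l), fun a b ha hb => ?_, fun y k hy h => ?_⟩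
  · rw [← Nat.cast_add]
    apply hinj
    rw [pow_add, hI a ha, hI b hb, hI _ (mul_ne_zero ha hb), mul_pow]
  · apply hinj
    have hy' : (y : ZMod q) ≠ 0 := by
      rw [Ne, ZMod.natCast_eq_zero_iff]
      exact fun h => hy (Nat.mod_eq_zero_of_dvd h)
    rw [hI _ hy']
    have : ((y ^ e : ℕ) : ZMod q) = ((w ^ k : ℕ) : ZMod q) :=
      (ZMod.natCast_eq_natCast_iff' _ _ _).2 h
    simpa using this

/-- key of row type `i` in class `t - 3` -/
def hkey (g : List ℕ) (p : List (List ℕ)) (t i : ℕ) : ℕ :=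
  (g.getD i 0 + (t + 4) * (i + 6 * (p.getD i []).getD t 0)) % 7

/-- check of a table for a holey solution -/
def holeyCheck (q w : ℕ) (g b : List ℕ) (p : List (List ℕ)) : Bool :=
  (q % 7 == 1) && (w ^ 7 % q == 1) && (w % q != 1) &&
  (List.range 7).all fun t => (List.range 7).all fun i =>
    ((b.getD i 0 + t) % q != 0) &&
    ((b.getD i 0 + t) ^ (q / 7) % q == w ^ ((p.getD i []).getD t 0) % q) &&
    (List.range 7).all fun i' => i == i' || hkey g p t i != hkey g p t i'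

lemma holey_of_check (q w : ℕ) [hq : Fact q.Prime] (g b : List ℕ) (p : List (List ℕ))
    (h : holeyCheck q w g b p = true) : Holey (ZMod q) := by
  have : Fact (Nat.Prime 7) := ⟨by norm_num⟩
  simp only [holeyCheck, Bool.and_eq_true, beq_iff_eq, bne_iff_ne, List.all_eq_true,
    List.mem_range, Bool.or_eq_true] at h
  obtain ⟨⟨⟨h1, h2⟩, h3⟩, h4⟩ := h
  obtain ⟨ind, hadd, hval⟩ := ind_exists q 7 (q / 7) w (by omega) h2 h3
  refine ⟨fun r => ((g.getD (r.1 - ind r.2).val 0 : ℕ),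
    ((b.getD (r.1 - ind r.2).val 0 + 3 : ℕ) : ZMod q) * r.2), fun c hc1 hc2 => ?_⟩
  obtain ⟨t, rfl⟩ : ∃ t : ℕ, c = (t : ℤ) - 3 := ⟨(c + 3).toNat, by omega⟩
  have ht : t < 7 := by omega
  have e2 : ∀ (r : ZMod 7 × ZMod q) (x : ZMod 7) (i : ℕ),
      ((x, ((b.getD i 0 + 3 : ℕ) : ZMod q) * r.2) +
        (((t : ℤ) - 3 : ℤ) : ZMod 7 × ZMod q) * r).2 = ((b.getD i 0 + t : ℕ) : ZMod q) * r.2 := by
    intro r x i
    simp only [Prod.snd_add, Prod.snd_mul, Prod.snd_intCast]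
    push_cast
    ring
  have e1 : ∀ (r : ZMod 7 × ZMod q) (x : ZMod 7) (y : ZMod q),
      ((x, y) + (((t : ℤ) - 3 : ℤ) : ZMod 7 × ZMod q) * r).1 = x + ((t : ZMod 7) + 4) * r.1 := by
    intro r x y
    simp only [Prod.fst_add, Prod.fst_mul, Prod.fst_intCast]
    push_cast
    have : (7 : ZMod 7) = 0 := rfl
    linear_combination (-r.1) * this
  have hne : ∀ i, i < 7 → ((b.getD i 0 + t : ℕ) : ZMod q) ≠ 0 := by
    intro i hi
    rw [Ne, ZMod.natCast_eq_zero_iff]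
    exact fun h => (h4 t ht i hi).1.1 (Nat.mod_eq_zero_of_dvd h)
  refine ⟨fun r hr => ?_, fun r r' hr hr' e => ?_⟩
  · rw [e2]
    exact mul_ne_zero (hne _ (ZMod.val_lt _)) hr
  · have f1 := congrArg Prod.fst e
    have f2 := congrArg Prod.snd e
    rw [e1, e1] at f1
    rw [e2, e2] at f2
    set i := (r.1 - ind r.2).val with hi
    set i' := (r'.1 - ind r'.2).val with hi'
    have hi7 : i < 7 := ZMod.val_lt _
    have hi7' : i' < 7 := ZMod.val_lt _
    have g1 : (i : ZMod 7) = r.1 - ind r.2 := ZMod.natCast_zmod_val _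
    have g1' : (i' : ZMod 7) = r'.1 - ind r'.2 := ZMod.natCast_zmod_val _
    have f3 := congrArg ind f2
    rw [hadd _ _ (hne i hi7) hr, hadd _ _ (hne i' hi7') hr',
      hval _ _ (h4 t ht i hi7).1.1 (h4 t ht i hi7).1.2,
      hval _ _ (h4 t ht i' hi7').1.1 (h4 t ht i' hi7').1.2] at f3
    have hk : hkey g p t i = hkey g p t i' := by
      unfold hkey
      rw [← ZMod.natCast_eq_natCast_iff']
      push_cast
      have : (7 : ZMod 7) = 0 := rfl
      rw [g1, g1']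
      linear_combination f1 - ((t : ZMod 7) + 4) * f3 +
        ((t : ZMod 7) + 4) * (((p.getD i []).getD t 0 : ℕ) - ((p.getD i' []).getD t 0 : ℕ)) * this
    have hii : i = i' := by
      rcases (h4 t ht i hi7).2 i' hi7' with h | h
      · exact h
      · exact absurd hk h
    rw [← hii] at f2 g1'
    have hy : r.2 = r'.2 := mul_left_cancel₀ (hne i hi7) f2
    refine Prod.ext ?_ hy
    rw [g1, hy] at g1'
    exact sub_left_inj.1 g1'

/-- check of a table of quadratic patterns -/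
def pattCheck (q : ℕ) (tb : List ℕ) : Bool :=
  (q % 2 == 1) && ((q - 1) ^ 2 % q == 1) && ((q - 1) % q != 1) &&
  (List.range 128).all fun k => (List.range 7).all fun t =>
    ((tb.getD k 0 + t) % q != 0) &&
    ((tb.getD k 0 + t) ^ (q / 2) % q == (q - 1) ^ (k / 2 ^ t % 2) % q)

lemma patt_of_check (q : ℕ) [hq : Fact q.Prime] (tb : List ℕ) (h : pattCheck q tb = true) :
    Patt (ZMod q) := by
  have : Fact (Nat.Prime 2) := ⟨by norm_num⟩
  simp only [pattCheck, Bool.and_eq_true, beq_iff_eq, bne_iff_ne, List.all_eq_true,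
    List.mem_range] at h
  obtain ⟨⟨⟨h1, h2⟩, h3⟩, h4⟩ := h
  obtain ⟨ind, hadd, hval⟩ := ind_exists q 2 (q / 2) (q - 1) (by omega) h2 h3
  refine ⟨ind, hadd, fun w => ?_⟩
  have hlt : ∀ c, (w c).val < 2 := fun c => ZMod.val_lt _
  obtain ⟨k, hk, hk'⟩ : ∃ k, k < 128 ∧ ∀ t : ℕ, t < 7 → k / 2 ^ t % 2 = (w ((t : ℤ) - 3)).val := by
    refine ⟨(w (-3)).val + 2 * (w (-2)).val + 4 * (w (-1)).val + 8 * (w 0).val + 16 * (w 1).val +
      32 * (w 2).val + 64 * (w 3).val, ?_, ?_⟩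
    · have := hlt (-3); have := hlt (-2); have := hlt (-1); have := hlt 0; have := hlt 1
      have := hlt 2; have := hlt 3
      omega
    · intro t ht
      have := hlt (-3); have := hlt (-2); have := hlt (-1); have := hlt 0; have := hlt 1
      have := hlt 2; have := hlt 3
      interval_cases t <;> norm_num <;> omega
  refine ⟨((tb.getD k 0 + 3 : ℕ) : ZMod q), fun c hc1 hc2 => ?_⟩
  obtain ⟨t, rfl⟩ : ∃ t : ℕ, c = (t : ℤ) - 3 := ⟨(c + 3).toNat, by omega⟩
  have ht : t < 7 := by omega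
  have e : ((tb.getD k 0 + 3 : ℕ) : ZMod q) + (((t : ℤ) - 3 : ℤ) : ZMod q) =
      ((tb.getD k 0 + t : ℕ) : ZMod q) := by
    push_cast; ring
  rw [e]
  refine ⟨?_, ?_⟩
  · rw [Ne, ZMod.natCast_eq_zero_iff]
    exact fun h => (h4 k hk t ht).1 (Nat.mod_eq_zero_of_dvd h)
  · rw [hval _ _ (h4 k hk t ht).1 (h4 k hk t ht).2, hk' t ht]
    exact ZMod.natCast_zmod_val _

end Pool.Agent.Lib.MP_7f0846_co
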