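import Pool.Agent.Lib.MP_7f0846_co.Strata
import Pool.Agent.Lib.MP_7f0846_co.Tables
import Pool.Agent.Lib.MP_7f0846_co.Data

namespace Pool.Agent.Lib.MP_7f0846_co

lemma prod_qq : 20021 * ∏ i, qq i = QN := by decide +kernel

lemma NN_eq : NN = 7 * 20021 * ∏ i, qq i := by
  rw [mul_assoc, prod_qq]; decide +kernel

lemma qq_coprime : Pairwise fun i j => Nat.Coprime (qq i) (qq j) := by
  intro i j
  revert i j
  decide +kernel

lemma cop1 : Nat.Coprime (7 * 20021) (∏ i, qq i) := by decide +kernel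

lemma cop2 : Nat.Coprime 20021 (∏ i, qq i) := by decide +kernel

/-- the Chinese remainder isomorphism -/
noncomputable def crt : ZMod NN ≃+* (ZMod 7 × ZMod 20021) × (Π i, ZMod (qq i)) :=
  ((ZMod.ringEquivCongr NN_eq).trans (ZMod.chineseRemainder cop1)).trans
    (RingEquiv.prodCongr (ZMod.chineseRemainder (show Nat.Coprime 7 20021 by norm_num))
      (ZMod.prodEquivPi qq qq_coprime))

lemma hole_iff (y : ℕ) : Hole (crt (y : ZMod NN)) ↔ QN ∣ y := by
  rw [map_natCast]
  unfold Hole
  simp only [Prod.snd_natCast, Prod.fst_natCast, ZMod.natCast_eq_zero_iff]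
  rw [← prod_qq]
  constructor
  · rintro ⟨h1, h2⟩
    refine cop2.mul_dvd_of_dvd_of_dvd h1 ?_
    have h3 : ∀ i, (qq i : ℤ) ∣ (y : ℤ) := by
      intro i
      have := congrFun h2 i
      simp only [Pi.natCast_apply, Pi.zero_apply, ZMod.natCast_eq_zero_iff] at this
      exact_mod_cast this
    have := Fintype.prod_dvd_of_coprime (s := fun i => (qq i : ℤ))
      (fun i j hij => Nat.isCoprime_iff_coprime.2 (qq_coprime hij)) h3
    exact_mod_cast this
  · intro h
    refine ⟨(dvd_mul_right _ _).trans h, ?_⟩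
    funext i
    simp only [Pi.natCast_apply, Pi.zero_apply, ZMod.natCast_eq_zero_iff]
    exact ((Finset.dvd_prod_of_mem _ (Finset.mem_univ i)).trans (dvd_mul_left _ _)).trans h

lemma op_of_coprime {y : ℕ} (h : Nat.Coprime y QN) : Op (crt (y : ZMod NN)) := by
  rw [map_natCast]
  unfold Op
  simp only [Prod.snd_natCast, Prod.fst_natCast, Pi.natCast_apply, ne_eq,
    ZMod.natCast_eq_zero_iff]
  rw [← prod_qq] at h
  refine ⟨fun h1 => ?_, fun i h1 => ?_⟩
  · have := Nat.eq_one_of_dvd_coprimes h h1 (dvd_mul_right _ _)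
    omega
  · have := Nat.eq_one_of_dvd_coprimes h h1
      ((Finset.dvd_prod_of_mem _ (Finset.mem_univ i)).trans (dvd_mul_left _ _))
    exact (qq_prime i).one_lt.ne' this

lemma fst_eq {y z : ℕ} (h : (crt (y : ZMod NN)).1 = (crt (z : ZMod NN)).1) :
    y % 140147 = z % 140147 := by
  rw [map_natCast, map_natCast] at h
  simp only [Prod.fst_natCast] at h
  have h1 := congrArg Prod.fst h
  have h2 := congrArg Prod.snd h
  simp only [Prod.fst_natCast, Prod.snd_natCast, ZMod.natCast_eq_natCast_iff] at h1 h2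
  exact (Nat.modEq_and_modEq_iff_modEq_mul (show Nat.Coprime 7 20021 by norm_num)).1 ⟨h1, h2⟩

lemma three_le_NN : 3 ≤ NN := by decide +kernel

lemma cvo_crt (o : Option ℤ) (ho : adm o) : ∃ t, t < 8 ∧ ∀ p : ℕ × ℕ,
    cvo o (crt (p.1 : ZMod NN)) (crt (p.2 : ZMod NN)) = crt ((vw NN t p : ℕ) : ZMod NN) := by
  cases o with
  | none => exact ⟨7, by omega, fun p => rfl⟩
  | some c =>
    obtain ⟨h1, h2⟩ := ho
    obtain ⟨t, rfl⟩ : ∃ t : ℕ, c = (t : ℤ) - 3 := ⟨(c + 3).toNat, by omega⟩
    refine ⟨t, by omega, fun p => ?_⟩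
    rw [vw, if_neg (by omega), vv_cast three_le_NN, map_add, map_mul, map_intCast]
    rfl

theorem hasSolution_NN : HasSolution NN 3 := by
  have hpres := presCheck_sound pres_ok
  obtain ⟨M, hM1, hM2⟩ := full_part (π := Fin (dR ++ dW).length) holey_q0 holey_qq patt_qq
    (fun p => crt (((dR ++ dW).get p).1 : ZMod NN)) (fun p => crt (((dR ++ dW).get p).2 : ZMod NN))
    (fun p o ho => by
      obtain ⟨t, ht, e⟩ := cvo_crt o ho
      rw [e]
      exact op_of_coprime ((hpres t ht).1 _ (List.get_mem _ _)))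
    (fun o ho p p' h => by
      obtain ⟨t, ht, e⟩ := cvo_crt o ho
      rw [e, e] at h
      have h1 := List.inj_on_of_nodup_map (hpres t ht).2 (List.get_mem _ p) (List.get_mem _ p')
        (fst_eq h)
      exact (List.Nodup.get_inj_iff (List.Nodup.of_map _ (hpres t ht).2)).1 h1)
    (by rw [Fintype.card_fin, Fintype.card_fin, pres_len]; norm_num)
  have e : ∀ (c : ℤ) (r : ZMod NN),
      crt (crt.symm (M (crt r)) + (c : ZMod NN) * r) = cvo (some c) (crt r) (M (crt r)) := by
    intro c r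
    rw [map_add, map_mul, map_intCast, RingEquiv.apply_symm_apply]
    rfl
  obtain ⟨f, hf⟩ := good_of_gadget NN three_le_NN
    (Nat.isCoprime_iff_coprime.2 (show Nat.Coprime NN 6 by decide +kernel))
    (fun r => Hole (crt r)) (fun r => crt.symm (M (crt r))) _ dR dW dH
    (fun j hj => by
      rw [hole_iff]
      simp only [NN, QN, dH, List.mem_cons, List.not_mem_nil, or_false] at hj ⊢
      omega)
    (fun p hp => by
      obtain ⟨i, rfl⟩ := List.get_of_mem hp
      refine ⟨?_, fun h => ?_⟩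
      · rw [hM1 i, RingEquiv.symm_apply_apply]
      · exact (op_of_coprime ((hpres 7 (by omega)).1 _ (List.get_mem _ i))).1 h.1)
    (fun c h1 h2 => by
      refine ⟨fun r hr => ?_, fun r r' hr hr' h => ?_⟩
      · rw [e]; exact (hM2 c h1 h2).1 _ hr
      · apply crt.injective
        apply (hM2 c h1 h2).2 _ _ hr hr'
        rw [← e, ← e, h])
    (gadgetCheck_of_fast fast_ok)
  exact hasSolution_of_good NN f hf

end Pool.Agent.Lib.MP_7f0846_co
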