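import Mathlib

namespace Pool.Agent.Lib.MP_7f0846_co

/-- a solution on `ZMod 7 × K` away from the seven points with second coordinate zero -/
def Holey (K : Type) [CommRing K] : Prop :=
  ∃ M : ZMod 7 × K → ZMod 7 × K, ∀ c : ℤ, -3 ≤ c → c ≤ 3 →
    (∀ r, r.2 ≠ 0 → (M r + (c : ZMod 7 × K) * r).2 ≠ 0) ∧
    (∀ r r', r.2 ≠ 0 → r'.2 ≠ 0 →
      M r + (c : ZMod 7 × K) * r = M r' + (c : ZMod 7 × K) * r' → r = r')

/-- every pattern of quadratic classes occurs on seven consecutive nonzero elements -/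
def Patt (K : Type) [CommRing K] : Prop :=
  ∃ χ : K → ZMod 2, (∀ a b, a ≠ 0 → b ≠ 0 → χ (a * b) = χ a + χ b) ∧
    ∀ w : ℤ → ZMod 2, ∃ b : K, ∀ c : ℤ, -3 ≤ c → c ≤ 3 → b + c ≠ 0 ∧ χ (b + c) = w c

/-- admissible classes -/
def adm : Option ℤ → Prop
  | none => True
  | some c => -3 ≤ c ∧ c ≤ 3

/-- the value of an edge in a class -/
def cvo {B : Type} [CommRing B] : Option ℤ → B → B → B
  | none, r, _ => r
  | some c, r, v => v + (c : B) * r

section
variable {F0 : Type} [Field F0] {ι : Type} {F : ι → Type} [∀ i, Field (F i)]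

/-- all field coordinates are nonzero -/
def Op (r : (ZMod 7 × F0) × (Π i, F i)) : Prop := r.1.2 ≠ 0 ∧ ∀ i, r.2 i ≠ 0

lemma cvo_fst (o : Option ℤ) (r v : (ZMod 7 × F0) × (Π i, F i)) :
    (cvo o r v).1 = cvo o r.1 v.1 := by
  cases o <;> simp [cvo]

/-- base level: a multiple cover that contains the prescribed edges -/
lemma base_cover {π : Type} (r : ℕ) (H0 : Holey F0) (row val : π → ZMod 7 × F0)
    (hop : ∀ p o, adm o → (cvo o (row p) (val p)).2 ≠ 0) :
    ∃ (J : Type) (brow bval : J → ZMod 7 × F0) (t0 : π → J)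
      (ψ : Option ℤ → J → (π × ZMod 7) ⊕ Fin r),
      (∀ p, brow (t0 p) = row p ∧ bval (t0 p) = val p) ∧
      (∀ t o, adm o → (cvo o (brow t) (bval t)).2 ≠ 0) ∧
      (∀ o, adm o → ∀ t t', cvo o (brow t) (bval t) = cvo o (brow t') (bval t') →
        ψ o t = ψ o t' → t = t') ∧
      (∀ v : ZMod 7 × F0, v.2 ≠ 0 → ∀ l, ∃ t, brow t = v ∧ ψ none t = l) := by
  obtain ⟨M0, hM0⟩ := H0
  refine ⟨(π × ZMod 7 × ZMod 7 × F0ˣ) ⊕ (Fin r × {v : ZMod 7 × F0 // v.2 ≠ 0}),
    Sum.elim (fun t => ((row t.1).1 + t.2.1, t.2.2.2 * (row t.1).2)) (fun t => t.2.1),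
    Sum.elim (fun t => ((val t.1).1 + t.2.2.1, t.2.2.2 * (val t.1).2)) (fun t => M0 t.2.1),
    fun p => Sum.inl (p, 0, 0, 1),
    fun o => Sum.map (fun t => (t.1, if o = none then t.2.2.1 else t.2.1)) (fun t => t.1),
    ?_, ?_, ?_, ?_⟩
  · intro p; simp
  · rintro (⟨p, a, a', h⟩ | ⟨m, v, hv⟩) o ho
    · have := hop p o ho
      cases o with
      | none => simpa [cvo] using this
      | some c =>
        simp only [cvo, Sum.elim_inl, Prod.snd_add, Prod.snd_mul, Prod.snd_intCast] at this ⊢
        have e : (h : F0) * (val p).2 + c * (h * (row p).2) = h * ((val p).2 + c * (row p).2) := by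
          ring
        rw [e]
        exact mul_ne_zero h.ne_zero this
    · cases o with
      | none => simpa [cvo] using hv
      | some c => exact (hM0 c ho.1 ho.2).1 v hv
  · rintro o ho (⟨p, a, a', h⟩ | ⟨m, v, hv⟩) (⟨p1, a1, a1', h1⟩ | ⟨m1, v1, hv1⟩) e1 e2
    · simp only [Sum.map_inl, Sum.inl.injEq, Prod.mk.injEq] at e2
      obtain ⟨rfl, e2⟩ := e2
      have := hop p o ho
      cases o with
      | none =>
        simp only [cvo, Sum.elim_inl, Prod.mk.injEq, add_right_inj] at e1 this
        simp only [if_true] at e2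
        have e3 : h = h1 := Units.ext (mul_right_cancel₀ this e1.2)
        rw [e1.1, e2, e3]
      | some c =>
        simp only [reduceCtorEq, if_false] at e2
        subst e2
        simp only [cvo, Sum.elim_inl, Prod.snd_add, Prod.snd_mul, Prod.snd_intCast] at e1 this
        have e3 := congrArg Prod.fst e1
        have e4 := congrArg Prod.snd e1
        simp only [Prod.fst_add, Prod.fst_mul, Prod.fst_intCast, Prod.snd_add, Prod.snd_mul,
          Prod.snd_intCast, add_left_inj, add_right_inj] at e3 e4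
        have e5 : h = h1 := by
          apply Units.ext
          apply mul_right_cancel₀ this
          linear_combination e4
        rw [e3, e5]
    · simp at e2
    · simp at e2
    · simp only [Sum.map_inr, Sum.inr.injEq] at e2
      subst e2
      cases o with
      | none =>
        simp only [cvo, Sum.elim_inr] at e1
        subst e1; rfl
      | some c =>
        have := (hM0 c ho.1 ho.2).2 v v1 hv hv1 e1
        subst this; rfl
  · rintro v hv (⟨p, a'⟩ | m)
    · have := hop p none trivial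
      simp only [cvo] at this
      refine ⟨Sum.inl (p, v.1 - (row p).1, a', Units.mk0 (v.2 / (row p).2) (div_ne_zero hv this)),
        ?_, by simp⟩
      simp only [Sum.elim_inl, Units.val_mk0]
      rw [div_mul_cancel₀ _ this]
      simp
    · exact ⟨Sum.inr (m, ⟨v, hv⟩), rfl, rfl⟩

theorem open_part [Fintype ι] [DecidableEq ι] {π : Type} [Fintype π] (H0 : Holey F0)
    (HP : ∀ i, Patt (F i)) (row val : π → (ZMod 7 × F0) × (Π i, F i))
    (hop : ∀ p o, adm o → Op (cvo o (row p) (val p)))
    (hinj : ∀ o, adm o → ∀ p p', (cvo o (row p) (val p)).1 = (cvo o (row p') (val p')).1 → p = p')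
    (hcard : 7 * Fintype.card π ≤ 2 ^ Fintype.card ι) :
    ∃ M : (ZMod 7 × F0) × (Π i, F i) → (ZMod 7 × F0) × (Π i, F i),
      (∀ p, M (row p) = val p) ∧ ∀ c : ℤ, -3 ≤ c → c ≤ 3 →
        (∀ r, Op r → Op (cvo (some c) r (M r))) ∧
        (∀ r r', Op r → Op r' → cvo (some c) r (M r) = cvo (some c) r' (M r') → r = r') := by
  classical
  obtain ⟨J, brow, bval, t0, ψ, ht0, hJop, hJinj, hJsurj⟩ :=
    base_cover (2 ^ Fintype.card ι - 7 * Fintype.card π) H0 (fun p => (row p).1)
      (fun p => (val p).1) (fun p o ho => by rw [← cvo_fst]; exact (hop p o ho).1)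
  choose χ hχ hw using HP
  have τ : ((π × ZMod 7) ⊕ Fin (2 ^ Fintype.card ι - 7 * Fintype.card π)) ≃ (ι → ZMod 2) := by
    apply Fintype.equivOfCardEq
    simp only [Fintype.card_sum, Fintype.card_prod, ZMod.card, Fintype.card_fin, Fintype.card_pi,
      Finset.prod_const, Finset.card_univ]
    omega
  let lab : (Π i, F i) → ι → ZMod 2 := fun y i => χ i (y i)
  let φ : Option ℤ → J → ZMod 7 × F0 := fun o t => cvo o (brow t) (bval t)
  let κ : Option ℤ → ZMod 7 × F0 → ι → ZMod 2 := fun o v =>
    if h : ∃ p, φ o (t0 p) = v then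
      lab (cvo o (row h.choose) (val h.choose)).2 - τ (ψ o (t0 h.choose)) else 0
  let β : Option ℤ → J → ι → ZMod 2 := fun o t => τ (ψ o t) + κ o (φ o t)
  have hφ0 : ∀ o p, φ o (t0 p) = (cvo o (row p) (val p)).1 := by
    intro o p
    simp only [φ, (ht0 p).1, (ht0 p).2, cvo_fst]
  have hβ0 : ∀ o, adm o → ∀ p, β o (t0 p) = lab (cvo o (row p) (val p)).2 := by
    intro o ho p
    have h : ∃ p', φ o (t0 p') = φ o (t0 p) := ⟨p, rfl⟩
    have e : h.choose = p := hinj o ho _ _ (by rw [← hφ0, ← hφ0]; exact h.choose_spec)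
    simp only [β, κ, dif_pos h, e]
    abel
  have hβinj : ∀ o, adm o → ∀ t t', φ o t = φ o t' → β o t = β o t' → t = t' := by
    intro o ho t t' e1 e2
    simp only [β, e1, add_left_inj] at e2
    exact hJinj o ho t t' e1 (τ.injective e2)
  have hsurj : ∀ r : (ZMod 7 × F0) × (Π i, F i), ∃ t, Op r → brow t = r.1 ∧ β none t = lab r.2 := by
    intro r
    by_cases hr : Op r
    · obtain ⟨t, h1, h2⟩ := hJsurj r.1 hr.1 (τ.symm (lab r.2 - κ none r.1))
      refine ⟨t, fun _ => ⟨h1, ?_⟩⟩
      have : φ none t = r.1 := h1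
      simp only [β, h2, this]
      simp
    · obtain ⟨t, _⟩ := hJsurj (0, 1) one_ne_zero (τ.symm 0)
      exact ⟨t, fun h => absurd h hr⟩
  choose T hT using hsurj
  have hslope : ∀ t, ∃ b : Π i, F i,
      (∀ c : ℤ, -3 ≤ c → c ≤ 3 → ∀ i, b i + c ≠ 0 ∧
        χ i (b i + c) = β (some c) t i - β none t i) ∧
      ∀ p, t = t0 p → b * (row p).2 = (val p).2 := by
    intro t
    by_cases h : ∃ p, t = t0 p
    · obtain ⟨p, rfl⟩ := h
      have hr := (hop p none trivial).2
      simp only [cvo] at hr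
      refine ⟨fun i => (val p).2 i / (row p).2 i, ?_, ?_⟩
      · intro c h1 h2 i
        have hv := (hop p (some c) ⟨h1, h2⟩).2 i
        have e : (cvo (some c) (row p) (val p)).2 i =
            ((val p).2 i / (row p).2 i + c) * (row p).2 i := by
          simp only [cvo, Prod.snd_add, Prod.snd_mul, Prod.snd_intCast, Pi.add_apply,
            Pi.mul_apply, Pi.intCast_apply]
          have := hr i
          field_simp
        have hne : (val p).2 i / (row p).2 i + c ≠ 0 := by
          intro h0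
          rw [e, h0, zero_mul] at hv
          exact hv rfl
        refine ⟨hne, ?_⟩
        rw [hβ0 (some c) ⟨h1, h2⟩, hβ0 none trivial]
        simp only [lab]
        rw [e, hχ i _ _ hne (hr i)]
        simp [cvo]
      · intro p' hp'
        have : p = p' := hinj none trivial _ _ (by rw [← hφ0, ← hφ0, hp'])
        subst this
        funext i
        simp only [Pi.mul_apply]
        exact div_mul_cancel₀ _ (hr i)
    · choose b hb using fun i => hw i (fun c => β (some c) t i - β none t i)
      exact ⟨b, fun c h1 h2 i => hb i c h1 h2, fun p hp => absurd ⟨p, hp⟩ h⟩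
  choose b hb hb0 using hslope
  refine ⟨fun r => (bval (T r), b (T r) * r.2), ?_, ?_⟩
  · intro p
    have hr := hop p none trivial
    have e : T (row p) = t0 p := by
      apply hβinj none trivial
      · rw [hφ0]; exact (hT _ hr).1
      · rw [hβ0 none trivial]; exact (hT _ hr).2
    show (bval (T (row p)), b (T (row p)) * (row p).2) = val p
    rw [e, hb0 _ p rfl, (ht0 p).2]
  · intro c h1 h2
    have e1 : ∀ r, Op r → (cvo (some c) r (bval (T r), b (T r) * r.2)).1 = φ (some c) (T r) := by
      intro r hr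
      rw [cvo_fst]
      simp only [φ, (hT r hr).1]
    have e2 : ∀ r i, (cvo (some c) r (bval (T r), b (T r) * r.2)).2 i =
        (b (T r) i + c) * r.2 i := by
      intro r i
      simp only [cvo, Prod.snd_add, Prod.snd_mul, Prod.snd_intCast, Pi.add_apply,
        Pi.mul_apply, Pi.intCast_apply]
      ring
    have e3 : ∀ r, Op r → lab (cvo (some c) r (bval (T r), b (T r) * r.2)).2 =
        β (some c) (T r) := by
      intro r hr
      funext i
      simp only [lab]
      rw [e2, hχ i _ _ (hb _ c h1 h2 i).1 (hr.2 i), (hb _ c h1 h2 i).2, (hT r hr).2]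
      simp [lab]
    refine ⟨fun r hr => ⟨?_, fun i => ?_⟩, fun r r' hr hr' e => ?_⟩
    · rw [e1 r hr]; exact hJop _ (some c) ⟨h1, h2⟩
    · rw [e2]; exact mul_ne_zero (hb _ c h1 h2 i).1 (hr.2 i)
    · have e4 : T r = T r' := by
        apply hβinj (some c) ⟨h1, h2⟩
        · rw [← e1 r hr, ← e1 r' hr', e]
        · rw [← e3 r hr, ← e3 r' hr', e]
      refine Prod.ext ?_ ?_
      · rw [← (hT r hr).1, ← (hT r' hr').1, e4]
      · funext i
        have := congrFun (congrArg Prod.snd e) i
        rw [e2, e2, e4] at this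
        exact mul_left_cancel₀ (hb _ c h1 h2 i).1 this

end

end Pool.Agent.Lib.MP_7f0846_co
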