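import Pool.Agent.Lib.MP_7f0846_co.Open

namespace Pool.Agent.Lib.MP_7f0846_co

section
variable {F0 : Type} [Field F0] {ι : Type} {F : ι → Type} [∀ i, Field (F i)]

/-- a product of fields with holey solutions has a holey solution -/
lemma holey_pi (H : ∀ i, Holey (F i)) (d : Π i, F i)
    (hd : ∀ c : ℤ, -3 ≤ c → c ≤ 3 → ∀ i, d i + c ≠ 0) : Holey (Π i, F i) := by
  classical
  choose M hM using H
  let sel : Set ι → Option ι := fun s => if h : s.Nonempty then some h.choose else none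
  have hsel : ∀ y : Π i, F i, y ≠ 0 → ∃ i, sel {i | y i ≠ 0} = some i ∧ y i ≠ 0 := by
    intro y hy
    have h : ({i | y i ≠ 0} : Set ι).Nonempty := by
      by_contra h
      apply hy
      funext i
      by_contra hi
      exact h ⟨i, hi⟩
    exact ⟨h.choose, by simp only [sel, dif_pos h], h.choose_spec⟩
  let G : ι → ZMod 7 × (Π i, F i) → ZMod 7 × (Π i, F i) := fun i r =>
    ((M i (r.1, r.2 i)).1, Function.update (d * r.2) i (M i (r.1, r.2 i)).2)
  refine ⟨fun r => (sel {i | r.2 i ≠ 0}).elim 0 (fun i => G i r), fun c h1 h2 => ?_⟩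
  have e1 : ∀ i r, (G i r + (c : ZMod 7 × (Π i, F i)) * r).1 =
      (M i (r.1, r.2 i) + (c : ZMod 7 × F i) * (r.1, r.2 i)).1 := by
    intro i r; simp [G]
  have e2 : ∀ i r, (G i r + (c : ZMod 7 × (Π i, F i)) * r).2 i =
      (M i (r.1, r.2 i) + (c : ZMod 7 × F i) * (r.1, r.2 i)).2 := by
    intro i r; simp [G]
  have e3 : ∀ i r j, j ≠ i → (G i r + (c : ZMod 7 × (Π i, F i)) * r).2 j = (d j + c) * r.2 j := by
    intro i r j hj
    simp [G, Function.update_of_ne hj]
    ring
  have e4 : ∀ i r, r.2 i ≠ 0 →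
      {j | (G i r + (c : ZMod 7 × (Π i, F i)) * r).2 j ≠ 0} = {j | r.2 j ≠ 0} := by
    intro i r hi
    ext j
    simp only [Set.mem_ofPred_eq]
    by_cases hj : j = i
    · subst hj
      rw [e2]
      exact ⟨fun _ => hi, fun _ => (hM j c h1 h2).1 _ hi⟩
    · rw [e3 i r j hj]
      simp [hd c h1 h2 j]
  refine ⟨fun r hr => ?_, fun r r' hr hr' e => ?_⟩
  · obtain ⟨i, hi, hi'⟩ := hsel r.2 hr
    simp only [hi, Option.elim]
    intro h0
    have := (hM i c h1 h2).1 (r.1, r.2 i) hi'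
    rw [← e2, h0] at this
    exact this rfl
  · obtain ⟨i, hi, hi'⟩ := hsel r.2 hr
    obtain ⟨i1, hi1, hi1'⟩ := hsel r'.2 hr'
    simp only [hi, hi1, Option.elim] at e
    have : i = i1 := by
      rw [← e4 i r hi', e, e4 i1 r' hi1', hi1] at hi
      exact (Option.some.inj hi).symm
    subst this
    have e5 := (hM i c h1 h2).2 (r.1, r.2 i) (r'.1, r'.2 i) hi' hi1'
      (Prod.ext (by rw [← e1, ← e1, e]) (by rw [← e2, ← e2, e]))
    simp only [Prod.mk.injEq] at e5
    refine Prod.ext e5.1 ?_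
    funext j
    by_cases hj : j = i
    · subst hj; exact e5.2
    · have := congrFun (congrArg Prod.snd e) j
      rw [e3 i r j hj, e3 i r' j hj] at this
      exact mul_left_cancel₀ (hd c h1 h2 j) this

/-- the seven points with all field coordinates zero -/
def Hole (r : (ZMod 7 × F0) × (Π i, F i)) : Prop := r.1.2 = 0 ∧ r.2 = 0

theorem full_part [Fintype ι] [DecidableEq ι] {π : Type} [Fintype π] (H0 : Holey F0)
    (H : ∀ i, Holey (F i))
    (HP : ∀ i, Patt (F i)) (row val : π → (ZMod 7 × F0) × (Π i, F i))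
    (hop : ∀ p o, adm o → Op (cvo o (row p) (val p)))
    (hinj : ∀ o, adm o → ∀ p p', (cvo o (row p) (val p)).1 = (cvo o (row p') (val p')).1 → p = p')
    (hcard : 7 * Fintype.card π ≤ 2 ^ Fintype.card ι) :
    ∃ M : (ZMod 7 × F0) × (Π i, F i) → (ZMod 7 × F0) × (Π i, F i),
      (∀ p, M (row p) = val p) ∧ ∀ c : ℤ, -3 ≤ c → c ≤ 3 →
        (∀ r, ¬ Hole r → ¬ Hole (cvo (some c) r (M r))) ∧
        (∀ r r', ¬ Hole r → ¬ Hole r' →
          cvo (some c) r (M r) = cvo (some c) r' (M r') → r = r') := by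
  classical
  obtain ⟨M1, hM1, hM1'⟩ := open_part H0 HP row val hop hinj hcard
  have hd : ∃ d : Π i, F i, ∀ c : ℤ, -3 ≤ c → c ≤ 3 → ∀ i, d i + c ≠ 0 := by
    choose χ _ hw using HP
    choose b hb using fun i => hw i (fun _ => 0)
    exact ⟨b, fun c h1 h2 i => (hb i c h1 h2).1⟩
  obtain ⟨d, hd⟩ := hd
  obtain ⟨M3, hM3⟩ := holey_pi H d hd
  obtain ⟨M0, hM0⟩ := H0
  let G2 : (ZMod 7 × F0) × (Π i, F i) → (ZMod 7 × F0) × (Π i, F i) := fun r => (M0 r.1, d * r.2)
  let G3 : (ZMod 7 × F0) × (Π i, F i) → (ZMod 7 × F0) × (Π i, F i) := fun r =>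
    (((M3 (r.1.1, r.2)).1, 0), (M3 (r.1.1, r.2)).2)
  refine ⟨fun r => if Op r then M1 r else if r.1.2 ≠ 0 then G2 r else G3 r, ?_,
    fun c h1 h2 => ?_⟩
  · intro p
    have : Op (row p) := hop p none trivial
    simp only [this, if_true, hM1]
  have a1 : ∀ r, (cvo (some c) r (G2 r)).1 = M0 r.1 + (c : ZMod 7 × F0) * r.1 := by
    intro r; simp [cvo, G2]
  have a2 : ∀ r i, (cvo (some c) r (G2 r)).2 i = (d i + c) * r.2 i := by
    intro r i; simp [cvo, G2]; ring
  have a3 : ∀ r, (cvo (some c) r (G3 r)).1.1 =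
      (M3 (r.1.1, r.2) + (c : ZMod 7 × (Π i, F i)) * (r.1.1, r.2)).1 := by
    intro r; simp [cvo, G3]
  have a4 : ∀ r, (cvo (some c) r (G3 r)).2 =
      (M3 (r.1.1, r.2) + (c : ZMod 7 × (Π i, F i)) * (r.1.1, r.2)).2 := by
    intro r; simp [cvo, G3]
  have a5 : ∀ r, r.1.2 = 0 → (cvo (some c) r (G3 r)).1.2 = 0 := by
    intro r hr; simp [cvo, G3, hr]
  have b2 : ∀ r, ¬ Op r → r.1.2 ≠ 0 →
      (cvo (some c) r (G2 r)).1.2 ≠ 0 ∧ ¬ Op (cvo (some c) r (G2 r)) := by
    intro r hr hr'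
    refine ⟨by rw [a1]; exact (hM0 c h1 h2).1 _ hr', fun h => hr ⟨hr', fun i hi => ?_⟩⟩
    have := h.2 i
    rw [a2, hi, mul_zero] at this
    exact this rfl
  have b3 : ∀ r : (ZMod 7 × F0) × (Π i, F i), ¬ Hole r → r.1.2 = 0 → r.2 ≠ 0 :=
    fun r hr hr' h => hr ⟨hr', h⟩
  refine ⟨fun r hr => ?_, fun r r' hr hr' => ?_⟩
  · by_cases c1 : Op r
    · simp only [c1, if_true]
      exact fun h => ((hM1' c h1 h2).1 r c1).1 h.1
    · by_cases c2 : r.1.2 = 0
      · simp only [c1, c2, if_false, ne_eq, not_true_eq_false]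
        intro h
        have := (hM3 c h1 h2).1 (r.1.1, r.2) (b3 r hr c2)
        rw [← a4] at this
        exact this h.2
      · simp only [c1, c2, if_false, ne_eq, not_false_eq_true, if_true]
        exact fun h => (b2 r c1 c2).1 h.1
  · by_cases c1 : Op r <;> by_cases c1' : Op r' <;> by_cases c2 : r.1.2 = 0 <;>
      by_cases c2' : r'.1.2 = 0 <;>
      simp only [c1, c1', c2, c2', if_true, if_false, ne_eq, not_true_eq_false,
        not_false_eq_true] <;> intro e
    all_goals try (exact absurd c2 c1.1)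
    all_goals try (exact absurd c2' c1'.1)
    · exact (hM1' c h1 h2).2 r r' c1 c1' e
    · have := ((hM1' c h1 h2).1 r c1).1
      rw [e] at this
      exact absurd (a5 r' c2') this
    · have := (hM1' c h1 h2).1 r c1
      rw [e] at this
      exact absurd this (b2 r' c1' c2').2
    · have := ((hM1' c h1 h2).1 r' c1').1
      rw [← e] at this
      exact absurd (a5 r c2) this
    · have := (hM1' c h1 h2).1 r' c1'
      rw [← e] at this
      exact absurd this (b2 r c1 c2).2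
    · have := (hM3 c h1 h2).2 (r.1.1, r.2) (r'.1.1, r'.2) (b3 r hr c2) (b3 r' hr' c2')
        (Prod.ext (by rw [← a3, ← a3, e]) (by rw [← a4, ← a4, e]))
      simp only [Prod.mk.injEq] at this
      exact Prod.ext (Prod.ext this.1 (by rw [c2, c2'])) this.2
    · have := (b2 r' c1' c2').1
      rw [← e] at this
      exact absurd (a5 r c2) this
    · have := (b2 r c1 c2).1
      rw [e] at this
      exact absurd (a5 r' c2') this
    · refine Prod.ext ((hM0 c h1 h2).2 _ _ c2 c2' (by rw [← a1, ← a1, e])) ?_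
      funext i
      have := congrFun (congrArg Prod.snd e) i
      rw [a2, a2] at this
      exact mul_left_cancel₀ (hd c h1 h2 i) this

end

end Pool.Agent.Lib.MP_7f0846_co
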